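import Pool.Agent.Helper53.WR.Defs

/-!
# Project WR, piece C4: sums of a world and the older elements
-/

set_option autoImplicit false

namespace Pool.Agent.Helper12.WR

open Finset
open Pool.Agent.Helper3.Thin (dig und off Lab GoodSet)
open Pool.Agent.Helper53.WR

/-- Elements of a world. -/
theorem exists_of_mem_world {q : ℕ} {Γ : Finset (ZMod q × ZMod q)} {T : Finset ℕ} {S : ℕ}
    {τ : ZMod q × ZMod q → ZMod q × ZMod q}
    {σ : (ZMod q × ZMod q) × (ZMod q × ZMod q) → ℕ} {b : ℕ} (hb : b ∈ World Γ T S τ σ) :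
    ∃ (p : (ZMod q × ZMod q) × (ZMod q × ZMod q)) (ε : Lab) (t : ℕ),
      p ∈ Γ ×ˢ Γ ∧ t ∈ T ∧ elt S τ σ p ε t = b := by
  unfold World Ind at hb
  obtain ⟨x, hx, hxb⟩ := mem_image.1 hb
  have hx1 := mem_product.1 hx
  exact ⟨x.1.1, x.1.2, x.2, (mem_product.1 hx1.1).1, hx1.2, hxb⟩

/-- Counting with a two-step cover. -/
theorem card_le_of_cover {α β γ : Type} [DecidableEq α] (F : Finset α) (L : Finset β)
    (P : β → Finset γ) (R : β → γ → Finset α) (c t D : ℕ) (hL : L.card ≤ c)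
    (hP : ∀ b ∈ L, (P b).card ≤ t) (hR : ∀ b g, (R b g).card ≤ D)
    (hcov : ∀ y ∈ F, ∃ b ∈ L, ∃ g ∈ P b, y ∈ R b g) : F.card ≤ c * (t * D) := by
  have hsub : F ⊆ L.biUnion (fun b => (P b).biUnion (fun g => R b g)) := by
    intro y hy
    obtain ⟨b, hb, g, hg, hyR⟩ := hcov y hy
    exact mem_biUnion.2 ⟨b, hb, mem_biUnion.2 ⟨g, hg, hyR⟩⟩
  refine le_trans (card_le_card hsub) (le_trans card_biUnion_le ?_)
  calc ∑ b ∈ L, ((P b).biUnion (fun g => R b g)).card ≤ ∑ b ∈ L, t * D := by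
        refine sum_le_sum (fun b hb => ?_)
        refine le_trans card_biUnion_le ?_
        calc ∑ g ∈ P b, (R b g).card ≤ ∑ g ∈ P b, D := sum_le_sum (fun g _ => hR b g)
          _ = (P b).card * D := by rw [sum_const, smul_eq_mul]
          _ ≤ t * D := Nat.mul_le_mul_right _ (hP b hb)
    _ = L.card * (t * D) := by rw [sum_const, smul_eq_mul]
    _ ≤ c * (t * D) := Nat.mul_le_mul_right _ hL

/-- WR-C4 (sums of a world and the older elements). -/
theorem world_cross {q : ℕ} [Fact q.Prime] (Γ : Finset (ZMod q × ZMod q))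
    (T O : Finset ℕ) (S D t0 n : ℕ) (τ : ZMod q × ZMod q → ZMod q × ZMod q)
    (σ : (ZMod q × ZMod q) × (ZMod q × ZMod q) → ℕ)
    (hD : ∀ r, (O.filter (fun o => o % q ^ 4 = r)).card ≤ D)
    (h : ∀ ε : Lab, ((Γ ×ˢ Γ).filter (fun p => ∃ o ∈ O, ∃ t ∈ T,
        elt S τ σ p ε t + o = n)).card ≤ t0) :
    (((World Γ T S τ σ) ×ˢ O).filter (fun y => y.1 + y.2 = n)).card ≤ 4096 * (t0 * D) := by
  classical
  -- the elements of `O` which occur for a fixed index and label
  have hR : ∀ (ε : Lab) (p : (ZMod q × ZMod q) × (ZMod q × ZMod q)),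
      (O.filter (fun o => ∃ t ∈ T, elt S τ σ p ε t + o = n)).card ≤ D := by
    intro ε p
    rcases (O.filter (fun o => ∃ t ∈ T, elt S τ σ p ε t + o = n)).eq_empty_or_nonempty with
      he | ⟨o0, ho0⟩
    · rw [he]; simp
    · refine le_trans (card_le_card ?_) (hD (o0 % q ^ 4))
      intro o ho
      rw [mem_filter] at ho ho0 ⊢
      obtain ⟨hoO, t, ht, hto⟩ := ho
      obtain ⟨ho0O, t', ht', hto'⟩ := ho0
      refine ⟨hoO, ?_⟩
      unfold elt at hto hto'
      have key : (und p.1 (p.2 + τ p.1) + off q ε) + o + q ^ 4 * (S + σ p + t)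
          = (und p.1 (p.2 + τ p.1) + off q ε) + o0 + q ^ 4 * (S + σ p + t') := by omega
      have hmod : ((und p.1 (p.2 + τ p.1) + off q ε) + o + q ^ 4 * (S + σ p + t)) % q ^ 4
          = ((und p.1 (p.2 + τ p.1) + off q ε) + o0 + q ^ 4 * (S + σ p + t')) % q ^ 4 := by
        rw [key]
      rw [Nat.add_mul_mod_self_left, Nat.add_mul_mod_self_left] at hmod
      exact Nat.ModEq.add_left_cancel' (und p.1 (p.2 + τ p.1) + off q ε) hmod
  have key : ∀ y ∈ ((World Γ T S τ σ) ×ˢ O).filter (fun y => y.1 + y.2 = n),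
      ∃ ε : Lab, ∃ p : (ZMod q × ZMod q) × (ZMod q × ZMod q),
        p ∈ (Γ ×ˢ Γ).filter (fun p => ∃ o ∈ O, ∃ t ∈ T, elt S τ σ p ε t + o = n) ∧
        y ∈ (O.filter (fun o => ∃ t ∈ T, elt S τ σ p ε t + o = n)).image
            (fun o => (n - o, o)) := by
    intro y hy
    have hy1 := mem_filter.1 hy
    have hb := (mem_product.1 hy1.1).1
    have ho := (mem_product.1 hy1.1).2
    have hbo := hy1.2
    obtain ⟨p, ε, t, hp, ht, hxb⟩ := exists_of_mem_world hb
    clear hy hb hy1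
    obtain ⟨b, o⟩ := y
    have hn : elt S τ σ p ε t + o = n := by rw [hxb]; exact hbo
    change o ∈ O at ho
    change b + o = n at hbo
    refine ⟨ε, p, mem_filter.2 ⟨hp, o, ho, t, ht, hn⟩, ?_⟩
    refine mem_image.2 ⟨o, mem_filter.2 ⟨ho, t, ht, hn⟩, ?_⟩
    have : n - o = b := by omega
    rw [this]
  have hL : (univ : Finset Lab).card ≤ 4096 := by
    rw [card_univ]
    exact le_of_eq (by simp [Lab, Fintype.card_prod])
  exact card_le_of_cover _ (univ : Finset Lab)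
    (fun ε => (Γ ×ˢ Γ).filter (fun p => ∃ o ∈ O, ∃ t ∈ T, elt S τ σ p ε t + o = n))
    (fun ε p => (O.filter (fun o => ∃ t ∈ T, elt S τ σ p ε t + o = n)).image
            (fun o => (n - o, o))) 4096 t0 D hL (fun ε _ => h ε)
    (fun ε p => le_trans card_image_le (hR ε p))
    (fun y hy => Exists.elim (key y hy) (fun ε h1 => Exists.elim h1 (fun p h2 =>
      ⟨ε, mem_univ _, p, h2.1, h2.2⟩)))

end Pool.Agent.Helper12.WR
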